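import Pool.Agent.H30.HX.MonY

/-!
# Dense orbits on arbitrary varieties: row EPA
-/

set_option autoImplicit false

open MvPolynomial
open Pool.Agent.H12.ZD (pmap v O Res DenseOrbit NoInv)
open Pool.Agent.H18.HIT
open Pool.Agent.H18.HX

namespace Pool.Agent.H30.HX

/-- the divided difference -/
theorem div_diff {R B : Type} [CommRing R] [CommRing B] (φ : R →+* B) (S T : B) (n : ℕ) :
    ∀ p : Polynomial R, p.natDegree ≤ n →
      (∑ j ∈ Finset.range n, ((Polynomial.divX)^[j + 1] p).eval₂ φ S * T ^ j) * (T - S) =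
      p.eval₂ φ T - p.eval₂ φ S := by
  induction n with
  | zero =>
    intro p hp
    rw [Polynomial.eq_C_of_natDegree_le_zero hp]
    simp
  | succ n ih =>
    intro p hp
    have h1 := ih p.divX (by rw [Polynomial.natDegree_divX_eq_natDegree_tsub_one]; omega)
    have h2 : ∀ A : B, p.eval₂ φ A = p.divX.eval₂ φ A * A + φ (p.coeff 0) := by
      intro A
      conv_lhs => rw [← Polynomial.divX_mul_X_add p]
      rw [Polynomial.eval₂_add, Polynomial.eval₂_mul, Polynomial.eval₂_X, Polynomial.eval₂_C]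
    rw [Finset.sum_range_succ', h2 T, h2 S]
    have h3 : (∑ j ∈ Finset.range n, ((Polynomial.divX)^[j + 1 + 1] p).eval₂ φ S * T ^ (j + 1)) =
        (∑ j ∈ Finset.range n, ((Polynomial.divX)^[j + 1] p.divX).eval₂ φ S * T ^ j) * T := by
      rw [Finset.sum_mul]
      refine Finset.sum_congr rfl fun j _ => ?_
      rw [Function.iterate_succ_apply, pow_succ, mul_assoc]
    rw [h3, Function.iterate_one]
    linear_combination T * h1

/-- evaluation through `finSuccEquiv` -/
theorem eval_fse {N : ℕ} {κ B : Type} [CommRing κ] [CommRing B] [Algebra κ B] (G : Fin (N + 1) → B)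
    (g : Po (N + 1) κ) :
    (finSuccEquiv κ N g).eval₂ (aeval (fun i : Fin N => G i.succ) : Po N κ →ₐ[κ] B).toRingHom (G 0) =
      aeval G g := by
  induction g using MvPolynomial.induction_on with
  | C a =>
    rw [fse_C, Polynomial.eval₂_C]
    simp
  | add f g hf hg => rw [map_add, Polynomial.eval₂_add, hf, hg, map_add]
  | mul_X f i hf =>
    rw [map_mul, Polynomial.eval₂_mul, hf, map_mul, aeval_X]
    congr 1
    refine Fin.cases ?_ (fun j => ?_) i
    · rw [finSuccEquiv_X_zero, Polynomial.eval₂_X]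
    · rw [finSuccEquiv_X_succ, Polynomial.eval₂_C]
      simp

theorem ep_mul {N : ℕ} {κ : Type} [CommRing κ] (P : Po (N + 1) κ) (F : Tup (N + 1) κ) (r Q : ℕ)
    (hr : (finSuccEquiv κ N P).natDegree ≤ r) : ep P F r Q * (X 0 ^ Q - F 0) =
      aeval (Fin.cons (X 0 ^ Q) (fun i : Fin N => F i.succ) : Fin (N + 1) → Po (N + 1) κ) P -
        aeval F P := by
  have hd := div_diff (aeval (fun i : Fin N => F i.succ) : Po N κ →ₐ[κ] Po (N + 1) κ).toRingHom
    (F 0) (X 0 ^ Q : Po (N + 1) κ) r (finSuccEquiv κ N P) hr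
  have h2 := eval_fse F P
  have h3 := eval_fse (Fin.cons (X 0 ^ Q) (fun i : Fin N => F i.succ) :
    Fin (N + 1) → Po (N + 1) κ) P
  simp only [Fin.cons_zero, Fin.cons_succ] at h3
  rw [h2, h3] at hd
  refine Eq.trans ?_ hd
  refine congrArg (fun z => z * (X 0 ^ Q - F 0)) ?_
  unfold ep
  refine Finset.sum_congr rfl fun j _ => ?_
  have he := eval_fse F (ec P j)
  rw [fse_ec] at he
  rw [pow_mul, he]

theorem pf_EPA : T_EPA := by
  intro N r p t κ _ _ _ P F hP hm hfrob hPF
  have hp : 0 < p ^ t := pow_pos (Fact.out : p.Prime).pos t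
  have hr := natDeg_of hP hm
  have hPm : P ∈ fid P F (p ^ t) := Ideal.subset_span (Set.mem_insert _ _)
  rw [ep_mul P F r (p ^ t) hr.le]
  refine (fid P F (p ^ t)).sub_mem ?_ (Ideal.mem_of_dvd _ hPF hPm)
  have h4 : aeval (Fin.cons (X 0 ^ (p ^ t)) (fun i : Fin N => F i.succ) :
      Fin (N + 1) → Po (N + 1) κ) P -
      aeval (fun i : Fin (N + 1) => (X i ^ (p ^ t) : Po (N + 1) κ)) P ∈ fid P F (p ^ t) := by
    rw [← Ideal.Quotient.eq]
    have e1 : ∀ G : Fin (N + 1) → Po (N + 1) κ,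
        Ideal.Quotient.mk (fid P F (p ^ t)) (aeval G P) =
        aeval (fun i => Ideal.Quotient.mk (fid P F (p ^ t)) (G i)) P := by
      intro G
      have h := DFunLike.congr_fun (comp_aeval (R := κ) G (Ideal.Quotient.mkₐ κ (fid P F (p ^ t)))) P
      exact h
    rw [e1, e1]
    congr 2
    funext i
    refine Fin.cases rfl (fun j => ?_) i
    simp only [Fin.cons_succ]
    rw [Ideal.Quotient.eq]
    have h5 : (X j.succ ^ (p ^ t) - F j.succ : Po (N + 1) κ) ∈ fid P F (p ^ t) :=
      Ideal.subset_span (Set.mem_insert_of_mem _ ⟨j, rfl⟩)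
    have h6 := (fid P F (p ^ t)).neg_mem h5
    rwa [neg_sub] at h6
  have h5 : aeval (fun i : Fin (N + 1) => (X i ^ (p ^ t) : Po (N + 1) κ)) P = P ^ (p ^ t) := by
    have h6 := map_iterateFrobenius_expand p P t
    rw [map_expand, hfrob] at h6
    rw [← h6]
    rfl
  rw [h5] at h4
  have h7 : P ^ (p ^ t) ∈ fid P F (p ^ t) := Ideal.pow_mem_of_mem _ hPm _ hp
  have h8 := (fid P F (p ^ t)).add_mem h4 h7
  rwa [sub_add_cancel] at h8

end Pool.Agent.H30.HX
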