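import Pool.Agent.H18.HX.Targets

/-!
# Dense orbits on arbitrary varieties: polynomials monic in the first variable
-/

set_option autoImplicit false

open MvPolynomial
open Pool.Agent.H12.ZD (pmap v O Res DenseOrbit NoInv)
open Pool.Agent.H18.HIT
open Pool.Agent.H18.HX

namespace Pool.Agent.H30.HX

theorem coeff_divX_it {R : Type} [CommRing R] (p : Polynomial R) (j n : ℕ) :
    ((Polynomial.divX)^[j] p).coeff n = p.coeff (n + j) := by
  induction j generalizing n with
  | zero => rfl
  | succ j ih =>
    rw [Function.iterate_succ_apply', Polynomial.coeff_divX, ih]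
    congr 1
    ring

section

variable {N : ℕ} {k : Type} [CommRing k]

theorem fse_ec (P : Po (N + 1) k) (j : ℕ) :
    finSuccEquiv k N (ec P j) = (Polynomial.divX)^[j + 1] (finSuccEquiv k N P) := by
  unfold ec
  rw [AlgEquiv.apply_symm_apply]

theorem fse_C (a : k) : finSuccEquiv k N (C a) = Polynomial.C (C a) := by
  rw [finSuccEquiv_apply]
  simp

theorem natDeg_of [Nontrivial k] {P : Po (N + 1) k} {r : ℕ} (h : P.IsHomogeneous r) (hm : Mny P) :
    (finSuccEquiv k N P).natDegree = r := by
  have h1 : (finSuccEquiv k N P).coeff (finSuccEquiv k N P).natDegree = 1 := hm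
  have h2 : coeff (Finsupp.cons (finSuccEquiv k N P).natDegree (0 : Fin N →₀ ℕ)) P ≠ 0 := by
    rw [← finSuccEquiv_coeff_coeff, h1, coeff_zero_one]
    exact one_ne_zero
  have h3 := h h2
  rw [← h3]
  rw [Finsupp.weight_apply, Finsupp.sum_fintype _ _ (by simp), Fin.sum_univ_succ]
  simp

end

end Pool.Agent.H30.HX
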