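import Pool.Agent.H18.HX.Targets
import Pool.Agent.H30.HIT.RGG

/-!
# Dense orbits on arbitrary varieties: row GEN
-/

set_option autoImplicit false

open MvPolynomial
open Pool.Agent.H12.ZD (pmap v O Res DenseOrbit NoInv)
open Pool.Agent.H18.HIT
open Pool.Agent.H18.HX

namespace Pool.Agent.H30.HX

open Pool.Agent.H30.HIT (Rep box mem_box)

section

variable {N : ℕ} {k : Type} [Field k]

/-- homogeneous components of elements of an ideal generated by forms of the degree `d` -/
theorem hom_rep0 {d : ℕ} {F : Tup N k} (hF : ∀ i, (F i).IsHomogeneous d) (p : Po N k) (s : ℕ)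
    (hI : p ∈ Ideal.span (Set.range F)) :
    homogeneousComponent s p = 0 ∨ (d ≤ s ∧ ∃ g : Tup N k,
      (∀ i, (g i).totalDegree ≤ s - d) ∧ homogeneousComponent s p = ∑ i, g i * F i) := by
  obtain ⟨g, hg⟩ := Ideal.mem_span_range_iff_exists_fun.1 hI
  have key : ∀ i, homogeneousComponent s (g i * F i) =
      if d ≤ s then homogeneousComponent (s - d) (g i) * F i else 0 := by
    intro i
    have e1 : g i * F i = ∑ e ∈ Finset.range ((g i).totalDegree + 1),
        homogeneousComponent e (g i) * F i := by
      rw [← Finset.sum_mul, sum_homogeneousComponent]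
    have e2 : ∀ e, homogeneousComponent s (homogeneousComponent e (g i) * F i) =
        if s = e + d then homogeneousComponent e (g i) * F i else 0 := fun e =>
      homogeneousComponent_of_mem ((homogeneousComponent_isHomogeneous e (g i)).mul (hF i))
    rw [e1, map_sum]
    simp only [e2]
    split_ifs with hds
    · by_cases hle : s - d ≤ (g i).totalDegree
      · rw [Finset.sum_eq_single (s - d)]
        · rw [if_pos (by omega)]
        · intro b _ hb
          rw [if_neg (by omega)]
        · intro hnot
          exact absurd (Finset.mem_range.2 (by omega)) hnot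
      · rw [homogeneousComponent_eq_zero _ _ (by omega), zero_mul]
        refine Finset.sum_eq_zero fun e he => ?_
        have := Finset.mem_range.1 he
        rw [if_neg (by omega)]
    · refine Finset.sum_eq_zero fun e _ => ?_
      rw [if_neg (by omega)]
  have hps : homogeneousComponent s p = ∑ i, homogeneousComponent s (g i * F i) := by
    rw [← map_sum, hg]
  by_cases hds : d ≤ s
  · right
    refine ⟨hds, fun i => homogeneousComponent (s - d) (g i), fun i => ?_, ?_⟩
    · exact (homogeneousComponent_isHomogeneous _ _).totalDegree_le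
    · rw [hps]
      refine Finset.sum_congr rfl fun i _ => ?_
      rw [key, if_pos hds]
  · left
    rw [hps]
    refine Finset.sum_eq_zero fun i _ => ?_
    rw [key, if_neg hds]

/-- large powers of the variables -/
theorem exists_powI [IsAlgClosed k] {I : Ideal (Po N k)} {f : Tup N k}
    (hF : ∀ x, Zer I x → pmap f x = 0 → x = 0) :
    ∃ K : ℕ, ∀ j, (X j : Po N k) ^ K ∈ I ⊔ Ideal.span (Set.range f) := by
  classical
  have h1 : ∀ j, (X j : Po N k) ∈ (I ⊔ Ideal.span (Set.range f)).radical := by
    intro j
    rw [← vanishingIdeal_zeroLocus_eq_radical (K := k), mem_vanishingIdeal_iff]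
    intro x hx
    have h2 : x = 0 := by
      apply hF
      · intro q hq
        exact hx _ (Ideal.mem_sup_left hq)
      · funext i
        exact hx _ (Ideal.mem_sup_right (Ideal.subset_span ⟨i, rfl⟩))
    rw [aeval_X, h2]
    rfl
  choose n hn using h1
  refine ⟨∑ j, n j, fun j => ?_⟩
  have h3 : n j ≤ ∑ j, n j := Finset.single_le_sum (fun _ _ => Nat.zero_le _) (Finset.mem_univ j)
  obtain ⟨c, hc⟩ := Nat.exists_eq_add_of_le h3
  rw [hc, pow_add]
  exact Ideal.mul_mem_right _ _ (hn j)

end

theorem pf_GEN : T_GEN := by
  classical
  intro N d k _ _ I f hd hI hf hz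
  obtain ⟨K, hK⟩ := exists_powI hz
  refine ⟨K, ?_⟩
  -- main claim
  have main : ∀ (t : ℕ) (q : Po N k), q.totalDegree ≤ t → ∃ r, Rep f d K t r ∧ q - r ∈ I := by
    intro t
    induction t using Nat.strong_induction_on with
    | _ t ih =>
      intro q hq
      have mon : ∀ m : Fin N →₀ ℕ, m.degree ≤ t →
          ∃ r, Rep f d K t r ∧ monomial m (1 : k) - r ∈ I := by
        intro m hm
        by_cases hbox : ∀ i, m i ≤ K
        · exact ⟨_, Rep.mono_box f d K t hbox 1, by rw [sub_self]; exact I.zero_mem⟩
        · push Not at hbox
          obtain ⟨j, hj⟩ := hbox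
          have hmem : (monomial m (1 : k)) ∈ I ⊔ Ideal.span (Set.range f) := by
            have e1 : m = Finsupp.single j K + (m - Finsupp.single j K) := by
              rw [add_tsub_cancel_of_le]
              rw [Finsupp.single_le_iff]
              exact hj.le
            have e2 : (monomial m (1 : k)) = X j ^ K * monomial (m - Finsupp.single j K) 1 := by
              rw [X_pow_eq_monomial, monomial_mul, ← e1, one_mul]
            rw [e2]
            exact Ideal.mul_mem_right _ _ (hK j)
          obtain ⟨a, ha, b, hb, hab⟩ := Submodule.mem_sup.1 hmem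
          have hcomp : (monomial m (1 : k)) = homogeneousComponent m.degree a +
              homogeneousComponent m.degree b := by
            rw [← map_add, hab]
            exact (homogeneousComponent_eq_self (isHomogeneous_monomial (1 : k) rfl)).symm
          have haI := hI a ha m.degree
          rcases hom_rep0 hf b m.degree hb with h0 | ⟨hds, g, hg, he⟩
          · refine ⟨0, Rep.zero f d K t, ?_⟩
            rw [sub_zero, hcomp, h0, add_zero]
            exact haI
          · choose r hr1 hr2 using fun i => ih (m.degree - d) (by omega) (g i) (hg i)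
            refine ⟨∑ i, r i * f i, Rep.sum _ _ fun i _ => ((hr1 i).mulf i).mono (by omega), ?_⟩
            have e3 : (monomial m (1 : k)) - ∑ i, r i * f i = homogeneousComponent m.degree a +
                ∑ i, (g i - r i) * f i := by
              rw [hcomp, he, add_sub_assoc, ← Finset.sum_sub_distrib]
              congr 1
              refine Finset.sum_congr rfl fun i _ => ?_
              ring
            rw [e3]
            exact I.add_mem haI (I.sum_mem fun i _ => Ideal.mul_mem_right _ _ (hr2 i))
      have e4 : q = ∑ m ∈ q.support, C (coeff m q) * monomial m (1 : k) := by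
        conv_lhs => rw [as_sum q]
        refine Finset.sum_congr rfl fun m _ => ?_
        rw [C_mul_monomial, mul_one]
      have mon' : ∀ m : Fin N →₀ ℕ, ∃ r, m ∈ q.support →
          Rep f d K t r ∧ monomial m (1 : k) - r ∈ I := by
        intro m
        by_cases hm : m ∈ q.support
        · obtain ⟨r, hr⟩ := mon m ((le_totalDegree hm).trans hq)
          exact ⟨r, fun _ => hr⟩
        · exact ⟨0, fun h => absurd h hm⟩
      choose r hr using mon'
      refine ⟨∑ m ∈ q.support, C (coeff m q) * r m,
        Rep.sum _ _ fun m hm => (hr m hm).1.smul _, ?_⟩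
      have e5 : q - ∑ m ∈ q.support, C (coeff m q) * r m =
          ∑ m ∈ q.support, C (coeff m q) * (monomial m (1 : k) - r m) := by
        simp only [mul_sub]
        rw [Finset.sum_sub_distrib, ← e4]
      rw [e5]
      exact I.sum_mem fun m hm => Ideal.mul_mem_left _ _ (hr m hm).2
  intro t q hq
  obtain ⟨r, ⟨c, hc1, hc2⟩, hr⟩ := main t q hq
  refine ⟨c, hc1, ?_⟩
  rw [hc2] at hr
  exact hr

end Pool.Agent.H30.HX
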