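import Pool.Agent.H30.HX.MonY

/-!
# Dense orbits on arbitrary varieties: row IND
-/

set_option autoImplicit false

open MvPolynomial
open Pool.Agent.H12.ZD (pmap v O Res DenseOrbit NoInv)
open Pool.Agent.H18.HIT
open Pool.Agent.H18.HX

namespace Pool.Agent.H30.HX

section

variable {N r : ℕ} {k : Type} [Field k]

/-- the exponent vector of a multi-index -/
noncomputable def ex (b : Ix N r) : Fin N →₀ ℕ := Finsupp.equivFunOnFinite.symm fun i => (b.1 i : ℕ)

theorem ex_inj {b b' : Ix N r} (h : ex b = ex b') : b = b' := by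
  apply Subtype.ext
  funext i
  apply Fin.ext
  have := DFunLike.congr_fun h i
  exact this

theorem prod_ex (b : Ix N r) : (∏ i, (X i : Po N k) ^ (b.1 i : ℕ)) = monomial (ex b) 1 := by
  rw [monomial_eq, C_1, one_mul, Finsupp.prod_fintype _ _ (fun i => pow_zero _)]
  rfl

/-- the coefficients of `U` -/
theorem coeff_U (P : Po (N + 1) k) (a : Ix N r → k) (n : ℕ) :
    (finSuccEquiv k N (∑ b : Ix N r, C (a b) *
      (ec P (sz b) * ∏ i, X i.succ ^ (b.1 i : ℕ)))).coeff n =
    ∑ b : Ix N r, (finSuccEquiv k N P).coeff (n + (sz b + 1)) * monomial (ex b) (a b) := by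
  rw [map_sum, Polynomial.finsetSum_coeff]
  refine Finset.sum_congr rfl fun b _ => ?_
  rw [map_mul, map_mul, fse_C, fse_ec, map_prod]
  have h1 : (∏ i, finSuccEquiv k N (X i.succ ^ (b.1 i : ℕ))) =
      Polynomial.C (∏ i, (X i : Po N k) ^ (b.1 i : ℕ)) := by
    rw [map_prod]
    refine Finset.prod_congr rfl fun i _ => ?_
    rw [map_pow, finSuccEquiv_X_succ, map_pow]
  rw [h1, Polynomial.coeff_C_mul, Polynomial.coeff_mul_C, coeff_divX_it, prod_ex, mul_left_comm,
    C_mul_monomial, mul_one]

end

theorem pf_IND : T_IND := by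
  classical
  intro N r k _ P F c hP hF hc a ha
  have hr := natDeg_of hP.hom hP.mon
  have hmon : (finSuccEquiv k N P).coeff r = 1 := by
    have h1 : (finSuccEquiv k N P).coeff (finSuccEquiv k N P).natDegree = 1 := hP.mon
    rwa [hr] at h1
  set U : Po (N + 1) k := ∑ b : Ix N r, C (a b) * (ec P (sz b) * ∏ i, X i.succ ^ (b.1 i : ℕ))
    with hU
  have h1 : (∑ b, C (a b) * gl P F c b) = c * aeval F U := by
    rw [hU, map_sum, Finset.mul_sum]
    refine Finset.sum_congr rfl fun b _ => ?_
    rw [map_mul, algHom_C, algebraMap_eq]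
    unfold gl
    ring
  rw [h1] at ha
  have h2 : P ∣ aeval F U := (hP.irr.prime.dvd_or_dvd ha).resolve_left hc
  have h3 : P ∣ U := Ideal.mem_span_singleton.1 (hF.inj U (Ideal.mem_span_singleton.2 h2))
  -- `U` has a small degree
  have h4 : finSuccEquiv k N U = 0 := by
    by_cases hU0 : finSuccEquiv k N U = 0
    · exact hU0
    refine Polynomial.eq_zero_of_dvd_of_natDegree_lt
      ((map_dvd_iff (finSuccEquiv k N)).2 h3) ?_
    rw [hr, Polynomial.natDegree_lt_iff_degree_lt hU0, Polynomial.degree_lt_iff_coeff_zero]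
    intro n hn
    rw [hU, coeff_U]
    refine Finset.sum_eq_zero fun b _ => ?_
    rw [Polynomial.coeff_eq_zero_of_natDegree_lt (by omega), zero_mul]
  -- induction on the size
  have main : ∀ (s : ℕ) (b : Ix N r), sz b = s → a b = 0 := by
    intro s
    induction s using Nat.strong_induction_on with
    | _ s ih =>
      intro b0 hb0
      have hlt : sz b0 < r := b0.2
      have h5 : (finSuccEquiv k N U).coeff (r - 1 - s) = 0 := by rw [h4, Polynomial.coeff_zero]
      rw [hU, coeff_U] at h5
      have h6 := congrArg (coeff (ex b0)) h5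
      rw [coeff_sum, coeff_zero, Finset.sum_eq_single b0] at h6
      · have e1 : r - 1 - s + (sz b0 + 1) = r := by omega
        rw [e1, hmon, one_mul, coeff_monomial, if_pos rfl] at h6
        exact h6
      · intro b _ hb
        rcases lt_trichotomy (sz b) s with h | h | h
        · rw [ih _ h b rfl]
          simp
        · have e1 : r - 1 - s + (sz b + 1) = r := by omega
          rw [e1, hmon, one_mul, coeff_monomial, if_neg (fun h => hb (ex_inj h))]
        · rw [Polynomial.coeff_eq_zero_of_natDegree_lt (by omega), zero_mul, coeff_zero]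
      · intro h
        exact absurd (Finset.mem_univ b0) h
  funext b
  exact main _ b rfl

end Pool.Agent.H30.HX
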