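import Pool.Agent.H30.HX.MonY

/-!
# Dense orbits on arbitrary varieties: row KEB
-/

set_option autoImplicit false

open MvPolynomial
open Pool.Agent.H12.ZD (pmap v O Res DenseOrbit NoInv)
open Pool.Agent.H18.HIT
open Pool.Agent.H18.HX

namespace Pool.Agent.H30.HX

namespace KEB

section

variable {N : ℕ} {κ : Type} [Field κ]

theorem dd_self (P : Po (N + 1) κ) (i : Fin N) : dd P i P = 0 := by
  unfold dd
  rw [Derivation.sub_apply, Derivation.smul_apply, Derivation.smul_apply, smul_eq_mul, smul_eq_mul]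
  ring

theorem dd_pow (p t : ℕ) [CharP κ p] (ht : 1 ≤ t) (P m : Po (N + 1) κ) (i : Fin N) :
    dd P i (m ^ (p ^ t)) = 0 := by
  have h0 : ((p ^ t : ℕ) : Po (N + 1) κ) = 0 := by
    rw [Nat.cast_pow, CharP.cast_eq_zero, zero_pow (by omega)]
  rw [Derivation.leibniz_pow, ← Nat.cast_smul_eq_nsmul (Po (N + 1) κ), h0, zero_smul]

theorem dd_mul_pow (p t : ℕ) [CharP κ p] (ht : 1 ≤ t) (P m g : Po (N + 1) κ) (i : Fin N) :
    dd P i (g * m ^ (p ^ t)) = dd P i g * m ^ (p ^ t) := by
  rw [Derivation.leibniz, dd_pow p t ht, smul_zero, zero_add, smul_eq_mul, mul_comm]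

theorem dw_mul_pow (p t : ℕ) [CharP κ p] (ht : 1 ≤ t) (P m g : Po (N + 1) κ) (w : List (Fin N)) :
    dw P w (g * m ^ (p ^ t)) = dw P w g * m ^ (p ^ t) := by
  induction w with
  | nil => rfl
  | cons i w ih =>
    change dd P i (dw P w (g * m ^ (p ^ t))) = dd P i (dw P w g) * m ^ (p ^ t)
    rw [ih, dd_mul_pow p t ht]

theorem dw_sum (P : Po (N + 1) κ) {ι : Type} (s : Finset ι) (f : ι → Po (N + 1) κ)
    (w : List (Fin N)) : dw P w (∑ l ∈ s, f l) = ∑ l ∈ s, dw P w (f l) := by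
  induction w with
  | nil => rfl
  | cons i w ih =>
    change dd P i (dw P w (∑ l ∈ s, f l)) = ∑ l ∈ s, dd P i (dw P w (f l))
    rw [ih, map_sum]

/-- the ideal -/
noncomputable def J (P : Po (N + 1) κ) (s : ℕ) : Ideal (Po (N + 1) κ) :=
  Ideal.span (insert P (Set.range fun i : Fin N => X i.succ ^ s))

theorem mem_J {P : Po (N + 1) κ} {s : ℕ} {u : Po (N + 1) κ} :
    u ∈ J P s ↔ ∃ (g : Po (N + 1) κ) (G : Fin N → Po (N + 1) κ),
      u = g * P + ∑ i, G i * X i.succ ^ s := by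
  unfold J
  rw [Ideal.mem_span_insert]
  constructor
  · rintro ⟨a, z, hz, rfl⟩
    obtain ⟨G, hG⟩ := Ideal.mem_span_range_iff_exists_fun.1 hz
    exact ⟨a, G, by rw [hG]⟩
  · rintro ⟨g, G, rfl⟩
    exact ⟨g, _, Ideal.mem_span_range_iff_exists_fun.2 ⟨G, rfl⟩, rfl⟩

theorem dd_J (p t r : ℕ) [CharP κ p] (ht : 1 ≤ t) {P u : Po (N + 1) κ} (i : Fin N)
    (hu : u ∈ J P (p ^ t * r)) : dd P i u ∈ J P (p ^ t * r) := by
  obtain ⟨g, G, rfl⟩ := mem_J.1 hu
  refine mem_J.2 ⟨dd P i g, fun j => dd P i (G j), ?_⟩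
  rw [map_add, map_sum, Derivation.leibniz, dd_self, smul_zero, zero_add, smul_eq_mul,
    mul_comm P]
  congr 1
  refine Finset.sum_congr rfl fun j _ => ?_
  have e : (X j.succ : Po (N + 1) κ) ^ (p ^ t * r) = (X j.succ ^ r) ^ (p ^ t) := by
    rw [← pow_mul, mul_comm]
  rw [e, dd_mul_pow p t ht]

theorem dw_J (p t r : ℕ) [CharP κ p] (ht : 1 ≤ t) {P u : Po (N + 1) κ} (w : List (Fin N))
    (hu : u ∈ J P (p ^ t * r)) : dw P w u ∈ J P (p ^ t * r) := by
  induction w with
  | nil => exact hu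
  | cons i w ih => exact dd_J p t r ht i ih

/-- Cramer's rule modulo an ideal -/
theorem cramer {R ι : Type} [CommRing R] [Fintype ι] [DecidableEq ι] (I : Ideal R)
    (A : Matrix ι ι R) (m : ι → R) (h : ∀ a, ∑ l, A a l * m l ∈ I) (b : ι) :
    A.det * m b ∈ I := by
  have h1 : (A.adjugate.mulVec (A.mulVec m)) b = A.det * m b := by
    rw [Matrix.mulVec_mulVec, Matrix.adjugate_mul, Matrix.smul_mulVec, Matrix.one_mulVec]
    rfl
  rw [← h1]
  exact I.sum_mem fun a _ => Ideal.mul_mem_left _ _ (h a)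

theorem hc_mul {P q : Po (N + 1) κ} {r : ℕ} (hP : P.IsHomogeneous r) (e : ℕ) :
    P ∣ homogeneousComponent e (q * P) := by
  have e1 : q * P = ∑ j ∈ Finset.range (q.totalDegree + 1),
      homogeneousComponent j q * P := by
    rw [← Finset.sum_mul, sum_homogeneousComponent]
  rw [e1, map_sum]
  refine Finset.dvd_sum fun j _ => ?_
  rw [homogeneousComponent_of_mem ((homogeneousComponent_isHomogeneous j q).mul hP)]
  split_ifs
  · exact Dvd.intro_left _ rfl
  · exact dvd_zero P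

/-- the monomials of the remainder -/
theorem rem_mon {Q r : ℕ} (hr : 1 ≤ r) (c : Po N κ) (H : Fin N → Po N κ)
    (h : c * ∏ i, X i ^ (Q * (r - 1)) = ∑ i, H i * X i ^ (Q * r)) (m : Fin N →₀ ℕ)
    (hm : m ∈ c.support) : ∃ i, Q ≤ m i := by
  have h1 : (∏ i, X i ^ (Q * (r - 1)) : Po N κ) =
      monomial (Finsupp.equivFunOnFinite.symm fun _ => Q * (r - 1)) 1 := by
    rw [monomial_eq, C_1, one_mul, Finsupp.prod_fintype _ _ (fun i => pow_zero _)]
    rfl
  have h2 : c * ∏ i, X i ^ (Q * (r - 1)) ∈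
      Ideal.span ((fun s => monomial s (1 : κ)) '' (Set.range fun i : Fin N =>
        Finsupp.single i (Q * r))) := by
    rw [h]
    refine Ideal.sum_mem _ fun i _ => Ideal.mul_mem_left _ _ (Ideal.subset_span ?_)
    exact ⟨Finsupp.single i (Q * r), ⟨i, rfl⟩, (X_pow_eq_monomial).symm⟩
  rw [mem_ideal_span_monomial_image] at h2
  have h3 : m + (Finsupp.equivFunOnFinite.symm fun _ => Q * (r - 1)) ∈
      (c * ∏ i, X i ^ (Q * (r - 1)) : Po N κ).support := by
    rw [mem_support_iff, h1, coeff_mul_monomial, mul_one]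
    exact mem_support_iff.1 hm
  obtain ⟨_, ⟨i, rfl⟩, hi⟩ := h2 _ h3
  refine ⟨i, ?_⟩
  have h4 := hi i
  rw [Finsupp.single_eq_same, Finsupp.add_apply] at h4
  have h5 : (Finsupp.equivFunOnFinite.symm (fun _ : Fin N => Q * (r - 1)) : Fin N →₀ ℕ) i =
      Q * (r - 1) := rfl
  rw [h5] at h4
  obtain ⟨s, rfl⟩ := Nat.exists_eq_add_of_le hr
  rw [Nat.add_sub_cancel_left, mul_add, mul_one] at h4
  omega

end

end KEB

open KEB

theorem pf_KEB : T_KEB := by
  classical
  intro N r p t κ _ _ _ P F c D ht hr hP hm hdeg hmem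
  have hp : 0 < p ^ t := pow_pos (Fact.out : p.Prime).pos t
  set Q := p ^ t with hQ
  set w := wr P F c D with hw
  let M : Ix N r → Po (N + 1) κ := fun l =>
    X 0 ^ (sz l) * ∏ i, X i.succ ^ (r - 1 - (l.1 i : ℕ))
  -- the relations after derivation
  have h1 : ∀ a, ∑ l : Ix N r, (Matrix.of fun a b => dw P (D a) (gl P F c b)) a l * (M l) ^ Q ∈
      J P (Q * r) := by
    intro a
    have h2 := dw_J p t r ht (D a) hmem
    rw [dw_sum] at h2
    have h3 : (∑ l : Ix N r, (Matrix.of fun a b => dw P (D a) (gl P F c b)) a l * (M l) ^ Q) =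
        ∑ l : Ix N r, dw P (D a) (gl P F c l * (X 0 ^ (sz l) *
          ∏ i, X i.succ ^ (r - 1 - (l.1 i : ℕ))) ^ (p ^ t)) := by
      refine Finset.sum_congr rfl fun l _ => ?_
      rw [dw_mul_pow p t ht]
      rfl
    rw [h3]
    exact h2
  -- the index zero
  let l0 : Ix N r := ⟨fun _ => ⟨0, by omega⟩, by
    rw [Finset.sum_eq_zero fun i _ => rfl]
    omega⟩
  have h4 : w * M l0 ^ Q ∈ J P (Q * r) := cramer (J P (Q * r)) _ (fun l => M l ^ Q) h1 l0
  have h5 : M l0 = ∏ i : Fin N, X i.succ ^ (r - 1) := by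
    have e1 : sz l0 = 0 := by
      unfold sz
      exact Finset.sum_eq_zero fun i _ => rfl
    change X 0 ^ (sz l0) * ∏ i : Fin N, X i.succ ^ (r - 1 - 0) = _
    rw [e1, pow_zero, one_mul]
    rfl
  obtain ⟨g, G, hg⟩ := mem_J.1 h4
  -- division by `P`
  have hmon : (finSuccEquiv κ N P).Monic := hm
  have h6 : (∏ i, (X i : Po N κ) ^ (Q * (r - 1))) • Polynomial.modByMonicHom
        (finSuccEquiv κ N P) (finSuccEquiv κ N w) =
      ∑ i : Fin N, ((X i : Po N κ) ^ (Q * r)) • Polynomial.modByMonicHom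
        (finSuccEquiv κ N P) (finSuccEquiv κ N (G i)) := by
    have e1 : finSuccEquiv κ N (w * M l0 ^ Q) =
        (∏ i, (X i : Po N κ) ^ (Q * (r - 1))) • finSuccEquiv κ N w := by
      rw [h5, map_mul, map_pow, map_prod, Polynomial.smul_eq_C_mul, mul_comm]
      congr 1
      rw [map_prod, ← Finset.prod_pow]
      refine Finset.prod_congr rfl fun i _ => ?_
      rw [map_pow, finSuccEquiv_X_succ, map_pow, ← pow_mul, mul_comm Q]
    have e2 : finSuccEquiv κ N (g * P + ∑ i, G i * X i.succ ^ (Q * r)) =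
        finSuccEquiv κ N g * finSuccEquiv κ N P +
          ∑ i : Fin N, ((X i : Po N κ) ^ (Q * r)) • finSuccEquiv κ N (G i) := by
      rw [map_add, map_mul, map_sum]
      congr 1
      refine Finset.sum_congr rfl fun i _ => ?_
      rw [map_mul, map_pow, finSuccEquiv_X_succ, Polynomial.smul_eq_C_mul, map_pow, mul_comm]
    have e3 : Polynomial.modByMonicHom (finSuccEquiv κ N P)
        (finSuccEquiv κ N g * finSuccEquiv κ N P) = 0 := by
      rw [Polynomial.modByMonicHom_apply, Polynomial.modByMonic_eq_zero_iff_dvd hmon]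
      exact Dvd.intro_left _ rfl
    rw [← map_smul, ← e1, hg, e2, map_add, e3, zero_add, map_sum]
    refine Finset.sum_congr rfl fun i _ => ?_
    rw [map_smul]
  have h7 : ∀ (n : ℕ) (m : Fin N →₀ ℕ),
      m ∈ ((finSuccEquiv κ N w %ₘ finSuccEquiv κ N P).coeff n).support → ∃ i, Q ≤ m i := by
    intro n m hmm
    have h8 := congrArg (fun z => Polynomial.coeff z n) h6
    simp only [Polynomial.modByMonicHom_apply, Polynomial.coeff_smul, smul_eq_mul,
      Polynomial.finsetSum_coeff] at h8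
    refine rem_mon hr _ (fun i => (finSuccEquiv κ N (G i) %ₘ finSuccEquiv κ N P).coeff n) ?_ m hmm
    rw [mul_comm, h8]
    exact Finset.sum_congr rfl fun i _ => mul_comm _ _
  -- the remainder and the quotient as polynomials
  obtain ⟨R0, hR0⟩ := (finSuccEquiv κ N).surjective (finSuccEquiv κ N w %ₘ finSuccEquiv κ N P)
  obtain ⟨q0, hq0⟩ := (finSuccEquiv κ N).surjective (finSuccEquiv κ N w /ₘ finSuccEquiv κ N P)
  have h9 : w = R0 + q0 * P := by
    apply (finSuccEquiv κ N).injective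
    rw [map_add, map_mul, hR0, hq0, mul_comm, Polynomial.modByMonic_add_div]
  have h10 : ∀ e, e < Q → homogeneousComponent e R0 = 0 := by
    intro e he
    ext m
    rw [coeff_homogeneousComponent, coeff_zero]
    split_ifs with hme
    · by_contra hne
      have h11 : m.tail ∈ ((finSuccEquiv κ N w %ₘ finSuccEquiv κ N P).coeff (m 0)).support := by
        rw [← hR0, mem_support_coeff_finSuccEquiv, Finsupp.cons_tail]
        exact mem_support_iff.2 hne
      obtain ⟨i, hi⟩ := h7 _ _ h11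
      rw [Finsupp.tail_apply] at hi
      have h12 : m i.succ ≤ m.degree := Finsupp.le_degree _ _
      omega
    · rfl
  rw [← sum_homogeneousComponent w]
  refine Finset.dvd_sum fun e he => ?_
  have he' := Finset.mem_range.1 he
  rw [h9, map_add, h10 e (by omega), zero_add]
  exact hc_mul hP e

end Pool.Agent.H30.HX
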